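import Mathlib
import Pool.Agent.Helper69.TS.Stmts

/-!
# Close pairs of partners

The number of pairs of partners of a point which are themselves close is bounded in mean.
-/

set_option autoImplicit false

namespace Pool.Agent.Helper56.TS.coll

open Finset Pool.Agent.Helper73.RK Pool.Agent.Helper69.TS

/-- pairs with close labels are counted by the squares over the labels -/
lemma close_pairs {α : Type} (P : Finset α) (I : Finset (ℕ × ℕ)) (a : α → ℝ) (ℓ : α → ℕ × ℕ)
    (A B : ℕ) (K : α → α → Prop) [∀ q r, Decidable (K q r)] (ha : ∀ q ∈ P, 0 ≤ a q)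
    (hI : ∀ q ∈ P, a q ≠ 0 → ℓ q ∈ I)
    (hK : ∀ q ∈ P, ∀ r ∈ P, K q r → a q ≠ 0 → a r ≠ 0 →
      ((ℓ q).1 ≤ (ℓ r).1 + A ∧ (ℓ r).1 ≤ (ℓ q).1 + A) ∧
      ((ℓ q).2 ≤ (ℓ r).2 + B ∧ (ℓ r).2 ≤ (ℓ q).2 + B)) :
    ∑ q ∈ P, ∑ r ∈ P, (if K q r then a q * a r else 0) ≤
      ((2 * A + 1) * (2 * B + 1) : ℕ) * ∑ i ∈ I, (∑ q ∈ P, if ℓ q = i then a q else 0) ^ 2 := by
  classical
  set U : ℕ × ℕ → ℝ := fun i => ∑ q ∈ P, if ℓ q = i then a q else 0 with hU
  set C : ℕ × ℕ → ℕ × ℕ → Prop := fun i j =>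
    (i.1 ≤ j.1 + A ∧ j.1 ≤ i.1 + A) ∧ (i.2 ≤ j.2 + B ∧ j.2 ≤ i.2 + B) with hC
  have hU0 : ∀ i, 0 ≤ U i := by
    intro i
    refine sum_nonneg fun q hq => ?_
    split_ifs
    · exact ha q hq
    · exact le_rfl
  -- first step: fibrewise
  have h1 : ∑ q ∈ P, ∑ r ∈ P, (if K q r then a q * a r else 0) ≤
      ∑ i ∈ I, ∑ j ∈ I, (if C i j then U i * U j else 0) := by
    have h2 : ∀ i ∈ I, ∀ j ∈ I, (if C i j then U i * U j else 0) =
        ∑ q ∈ P, ∑ r ∈ P, (if C i j ∧ ℓ q = i ∧ ℓ r = j then a q * a r else 0) := by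
      intro i _ j _
      by_cases hij : C i j
      · rw [if_pos hij, hU]
        simp only
        rw [sum_mul_sum]
        refine sum_congr rfl fun q _ => sum_congr rfl fun r _ => ?_
        by_cases h3 : ℓ q = i <;> by_cases h4 : ℓ r = j <;> simp [h3, h4, hij]
      · rw [if_neg hij]
        symm
        refine sum_eq_zero fun q _ => sum_eq_zero fun r _ => ?_
        rw [if_neg]
        rintro ⟨h, _⟩
        exact hij h
    rw [sum_congr rfl fun i hi => sum_congr rfl fun j hj => h2 i hi j hj]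
    have h5 : ∑ i ∈ I, ∑ j ∈ I, ∑ q ∈ P, ∑ r ∈ P,
        (if C i j ∧ ℓ q = i ∧ ℓ r = j then a q * a r else 0) =
        ∑ q ∈ P, ∑ r ∈ P, ∑ i ∈ I, ∑ j ∈ I,
        (if C i j ∧ ℓ q = i ∧ ℓ r = j then a q * a r else 0) := by
      calc _ = ∑ i ∈ I, ∑ q ∈ P, ∑ j ∈ I, ∑ r ∈ P,
            (if C i j ∧ ℓ q = i ∧ ℓ r = j then a q * a r else 0) :=
            sum_congr rfl fun i _ => sum_comm
        _ = ∑ q ∈ P, ∑ i ∈ I, ∑ j ∈ I, ∑ r ∈ P,
            (if C i j ∧ ℓ q = i ∧ ℓ r = j then a q * a r else 0) := sum_comm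
        _ = ∑ q ∈ P, ∑ i ∈ I, ∑ r ∈ P, ∑ j ∈ I,
            (if C i j ∧ ℓ q = i ∧ ℓ r = j then a q * a r else 0) :=
            sum_congr rfl fun q _ => sum_congr rfl fun i _ => sum_comm
        _ = _ := sum_congr rfl fun q _ => sum_comm
    rw [h5]
    refine sum_le_sum fun q hq => sum_le_sum fun r hr => ?_
    have hnn : ∀ i ∈ I, ∀ j ∈ I, 0 ≤ (if C i j ∧ ℓ q = i ∧ ℓ r = j then a q * a r else 0) := by
      intro i _ j _
      split_ifs
      · exact mul_nonneg (ha q hq) (ha r hr)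
      · exact le_rfl
    by_cases hz : K q r ∧ a q ≠ 0 ∧ a r ≠ 0
    · obtain ⟨hk, hq0, hr0⟩ := hz
      rw [if_pos hk]
      have h6 := hK q hq r hr hk hq0 hr0
      calc a q * a r = (if C (ℓ q) (ℓ r) ∧ ℓ q = ℓ q ∧ ℓ r = ℓ r then a q * a r else 0) := by
            rw [if_pos ⟨h6, rfl, rfl⟩]
        _ ≤ ∑ j ∈ I, (if C (ℓ q) j ∧ ℓ q = ℓ q ∧ ℓ r = j then a q * a r else 0) :=
            single_le_sum (f := fun j => if C (ℓ q) j ∧ ℓ q = ℓ q ∧ ℓ r = j then a q * a r else 0)
              (fun j hj => hnn (ℓ q) (hI q hq hq0) j hj) (hI r hr hr0)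
        _ ≤ _ := single_le_sum (f := fun i => ∑ j ∈ I,
              (if C i j ∧ ℓ q = i ∧ ℓ r = j then a q * a r else 0))
              (fun i hi => sum_nonneg fun j hj => hnn i hi j hj) (hI q hq hq0)
    · have : (if K q r then a q * a r else 0) = 0 := by
        by_cases hk : K q r
        · rw [if_pos hk]
          by_contra h0
          exact hz ⟨hk, fun h => h0 (by rw [h, zero_mul]), fun h => h0 (by rw [h, mul_zero])⟩
        · rw [if_neg hk]
      rw [this]
      exact sum_nonneg fun i hi => sum_nonneg fun j hj => hnn i hi j hj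
  -- second step : AM-GM
  have hcount : ∀ i : ℕ × ℕ, ((I.filter (fun j => C i j)).card : ℝ) ≤
      (((2 * A + 1) * (2 * B + 1) : ℕ) : ℝ) := by
    intro i
    norm_cast
    have hsub : I.filter (fun j => C i j) ⊆
        Icc (i.1 - A) (i.1 + A) ×ˢ Icc (i.2 - B) (i.2 + B) := by
      intro j hj
      rw [mem_filter] at hj
      obtain ⟨_, ⟨h1, h2⟩, h3, h4⟩ := hj
      rw [mem_product, mem_Icc, mem_Icc]
      refine ⟨⟨?_, h2⟩, ⟨?_, h4⟩⟩ <;> omega
    refine (card_le_card hsub).trans ?_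
    rw [card_product, Nat.card_Icc, Nat.card_Icc]
    apply Nat.mul_le_mul <;> omega
  have hsymm : ∀ i j, C i j ↔ C j i := by
    intro i j
    constructor
    · rintro ⟨⟨h1, h2⟩, h3, h4⟩
      exact ⟨⟨h2, h1⟩, h4, h3⟩
    · rintro ⟨⟨h1, h2⟩, h3, h4⟩
      exact ⟨⟨h2, h1⟩, h4, h3⟩
  have h2 : ∑ i ∈ I, ∑ j ∈ I, (if C i j then U i * U j else 0) ≤
      ∑ i ∈ I, ∑ j ∈ I, (if C i j then (U i ^ 2 / 2 + U j ^ 2 / 2) else 0) := by
    refine sum_le_sum fun i _ => sum_le_sum fun j _ => ?_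
    split_ifs
    · nlinarith [sq_nonneg (U i - U j)]
    · exact le_rfl
  have h3 : ∑ i ∈ I, ∑ j ∈ I, (if C i j then (U i ^ 2 / 2 + U j ^ 2 / 2) else 0) =
      ∑ i ∈ I, ((I.filter (fun j => C i j)).card : ℝ) * U i ^ 2 := by
    have h4 : ∑ i ∈ I, ∑ j ∈ I, (if C i j then (U i ^ 2 / 2 + U j ^ 2 / 2) else 0) =
        ∑ i ∈ I, ∑ j ∈ I, (if C i j then (U i ^ 2 / 2) else 0) +
        ∑ i ∈ I, ∑ j ∈ I, (if C i j then (U j ^ 2 / 2) else 0) := by
      rw [← sum_add_distrib]
      refine sum_congr rfl fun i _ => ?_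
      rw [← sum_add_distrib]
      refine sum_congr rfl fun j _ => ?_
      split_ifs <;> simp
    have h5 : ∑ i ∈ I, ∑ j ∈ I, (if C i j then (U j ^ 2 / 2) else 0) =
        ∑ i ∈ I, ∑ j ∈ I, (if C i j then (U i ^ 2 / 2) else 0) := by
      rw [sum_comm]
      refine sum_congr rfl fun i _ => sum_congr rfl fun j _ => ?_
      by_cases h : C i j
      · rw [if_pos h, if_pos ((hsymm i j).1 h)]
      · rw [if_neg h, if_neg (fun h' => h ((hsymm i j).2 h'))]
    rw [h4, h5, ← two_mul, mul_sum]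
    refine sum_congr rfl fun i _ => ?_
    rw [← sum_filter, sum_const, nsmul_eq_mul]
    ring
  calc _ ≤ _ := h1
    _ ≤ _ := h2
    _ = _ := h3
    _ ≤ ∑ i ∈ I, (((2 * A + 1) * (2 * B + 1) : ℕ) : ℝ) * U i ^ 2 :=
        sum_le_sum fun i _ => mul_le_mul_of_nonneg_right (hcount i) (sq_nonneg _)
    _ = _ := by rw [← mul_sum]

lemma blk_card (v b : ℕ) : (blk v b).card = v := by
  rw [blk, Nat.card_Ioc, Nat.succ_mul]
  omega

lemma mem_blk_iff {v b w : ℕ} (hv : 1 ≤ v) : w ∈ blk v b ↔ 1 ≤ w ∧ (w - 1) / v = b := by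
  rw [blk, mem_Ioc, Nat.div_eq_iff (by omega)]
  constructor
  · rintro ⟨h1, h2⟩
    rw [Nat.succ_mul] at h2
    have : 0 ≤ b * v := Nat.zero_le _
    refine ⟨by omega, by omega, ?_⟩
    omega
  · rintro ⟨h0, h1, h2⟩
    rw [Nat.succ_mul]
    refine ⟨by omega, by omega⟩

/-- cell index of a modulus -/
noncomputable def cell (c : Cfg) (p q : ℕ) : ℕ := (c.nn p q).toNat * (8 * c.m) / c.N

theorem coll (h : S_sq_le) : S_coll := by
  classical
  intro c hc p hp hpB v hv hvQ hspec
  have hE := hc.hE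
  have hm := hc.hm
  have hQ := hc.hQ
  have hpQ := hc.hlow p hp
  have hmv : 2 * c.m * v < p := by nlinarith
  set I : Finset (ℕ × ℕ) := Ico c.m (2 * c.m) ×ˢ range (8 * c.m + 1) with hI
  set g : ℕ → ℕ → ℝ := fun j q => if cell c p q = j then c.f p q else 0 with hg
  -- pointwise bound
  have hpt : ∀ t ∈ Ico 1 p, c.Coll v p t ≤ 567 * ∑ i ∈ I,
      (∑ q ∈ c.P, if t * q % p ∈ blk v i.1 then g i.2 q else 0) ^ 2 := by
    intro t ht
    set a : ℕ → ℝ := fun q => if t * q % p ∈ c.W v then c.f p q else 0 with ha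
    set ℓ : ℕ → ℕ × ℕ := fun q => ((t * q % p - 1) / v, cell c p q) with hℓ
    set K : ℕ → ℕ → Prop := fun q r =>
      |((t * q % p : ℕ) : ℝ) - ((t * r % p : ℕ) : ℝ)| ≤ 3 * v ∧
      |(c.nn p q : ℝ) - c.nn p r| * (8 * c.m) ≤ 40 * c.N with hK
    have ha1 : ∀ q, a q ≠ 0 → t * q % p ∈ c.W v ∧ c.f p q ≠ 0 := by
      intro q hq
      simp only [ha] at hq
      by_cases h1 : t * q % p ∈ c.W v
      · rw [if_pos h1] at hq
        exact ⟨h1, hq⟩
      · rw [if_neg h1] at hq
        exact absurd rfl hq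
    have hWb : ∀ q, t * q % p ∈ c.W v ↔ 1 ≤ t * q % p ∧ (t * q % p - 1) / v ∈ Ico c.m (2 * c.m) := by
      intro q
      rw [Cfg.W, mem_Ioc, mem_Ico, Nat.le_div_iff_mul_le (by omega), Nat.div_lt_iff_lt_mul (by omega)]
      have : 1 ≤ c.m * v := Nat.mul_pos (by omega) hv
      constructor
      · rintro ⟨h1, h2⟩
        refine ⟨by omega, by omega, by omega⟩
      · rintro ⟨h1, h2, h3⟩
        refine ⟨by omega, by omega⟩
    have hmain := close_pairs c.P I a ℓ 3 40 K
      (fun q _ => by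
        simp only [ha]
        split_ifs
        · exact hc.f0 p q
        · exact le_rfl)
      (fun q hq hq0 => by
        obtain ⟨h1, h2⟩ := ha1 q hq0
        have h3 := hc.fmeet p hp q hq h2
        rw [hI, mem_product]
        refine ⟨((hWb q).1 h1).2, ?_⟩
        rw [mem_range, Nat.lt_succ_iff]
        simp only [hℓ, cell]
        have hn1 := h3.1
        have hn2 := h3.2.1
        have hN : 0 < c.N := by
          by_contra h0
          have : c.N = 0 := by omega
          rw [this] at hn2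
          simp only [Nat.cast_zero] at hn2
          omega
        refine Nat.div_le_of_le_mul ?_
        have : (c.nn p q).toNat ≤ c.N := by omega
        exact Nat.mul_le_mul_right _ this)
      (fun q hq r hr hk hq0 hr0 => by
        obtain ⟨h1, h2⟩ := ha1 q hq0
        obtain ⟨h3, h4⟩ := ha1 r hr0
        have m1 := hc.fmeet p hp q hq h2
        have m2 := hc.fmeet p hp r hr h4
        have hw1 := ((hWb q).1 h1).1
        have hw2 := ((hWb r).1 h3).1
        obtain ⟨k1, k2⟩ := hk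
        have hN : 0 < c.N := by
          by_contra h0
          have h5 : c.N = 0 := by omega
          have hn1 := m1.1
          have hn2 := m1.2.1
          rw [h5] at hn2
          simp only [Nat.cast_zero] at hn2
          omega
        rw [abs_le] at k1
        have k1a : t * q % p ≤ t * r % p + 3 * v := by
          have : ((t * q % p : ℕ) : ℝ) ≤ ((t * r % p + 3 * v : ℕ) : ℝ) := by
            push_cast
            linarith [k1.2]
          exact_mod_cast this
        have k1b : t * r % p ≤ t * q % p + 3 * v := by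
          have : ((t * r % p : ℕ) : ℝ) ≤ ((t * q % p + 3 * v : ℕ) : ℝ) := by
            push_cast
            linarith [k1.1]
          exact_mod_cast this
        have key : ∀ x y : ℕ, 1 ≤ x → 1 ≤ y → x ≤ y + 3 * v → (x - 1) / v ≤ (y - 1) / v + 3 := by
          intro x y hx hy hxy
          rw [← Nat.add_mul_div_right _ _ (show 0 < v by omega)]
          exact Nat.div_le_div_right (by omega)
        have q1 : (((c.nn p q).toNat : ℕ) : ℝ) = (c.nn p q : ℝ) := by
          have : ((c.nn p q).toNat : ℤ) = c.nn p q := Int.toNat_of_nonneg (by linarith [m1.1])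
          exact_mod_cast this
        have q2 : (((c.nn p r).toNat : ℕ) : ℝ) = (c.nn p r : ℝ) := by
          have : ((c.nn p r).toNat : ℤ) = c.nn p r := Int.toNat_of_nonneg (by linarith [m2.1])
          exact_mod_cast this
        have hm0 : (0 : ℝ) < 8 * c.m := by positivity
        have k2a : (c.nn p q).toNat * (8 * c.m) ≤ (c.nn p r).toNat * (8 * c.m) + 40 * c.N := by
          have : (((c.nn p q).toNat * (8 * c.m) : ℕ) : ℝ) ≤
              (((c.nn p r).toNat * (8 * c.m) + 40 * c.N : ℕ) : ℝ) := by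
            push_cast
            rw [q1, q2]
            have := mul_le_mul_of_nonneg_right (le_abs_self ((c.nn p q : ℝ) - c.nn p r)) hm0.le
            linarith
          exact_mod_cast this
        have k2b : (c.nn p r).toNat * (8 * c.m) ≤ (c.nn p q).toNat * (8 * c.m) + 40 * c.N := by
          have : (((c.nn p r).toNat * (8 * c.m) : ℕ) : ℝ) ≤
              (((c.nn p q).toNat * (8 * c.m) + 40 * c.N : ℕ) : ℝ) := by
            push_cast
            rw [q1, q2]
            have := mul_le_mul_of_nonneg_right (neg_abs_le ((c.nn p q : ℝ) - c.nn p r)) hm0.le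
            linarith
          exact_mod_cast this
        have key2 : ∀ x y : ℕ, x ≤ y + 40 * c.N → x / c.N ≤ y / c.N + 40 := by
          intro x y hxy
          rw [← Nat.add_mul_div_right _ _ hN]
          exact Nat.div_le_div_right (by omega)
        exact ⟨⟨key _ _ hw1 hw2 k1a, key _ _ hw2 hw1 k1b⟩, ⟨key2 _ _ k2a, key2 _ _ k2b⟩⟩)
    have e1 : c.Coll v p t = ∑ q ∈ c.P, ∑ r ∈ c.P, (if K q r then a q * a r else 0) := by
      rw [Cfg.Coll]
      refine sum_congr rfl fun q _ => sum_congr rfl fun r _ => ?_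
      simp only [ha, hK]
      by_cases h1 : t * q % p ∈ c.W v <;> by_cases h2 : t * r % p ∈ c.W v <;> simp [h1, h2]
    rw [e1]
    refine hmain.trans (le_of_eq ?_)
    norm_num only [Nat.cast_mul, Nat.cast_add, Nat.cast_ofNat, Nat.cast_one]
    congr 1
    refine sum_congr rfl fun i hi => ?_
    congr 1
    refine sum_congr rfl fun q _ => ?_
    rw [hI, mem_product] at hi
    simp only [ha, hℓ, hg]
    by_cases h1 : t * q % p ∈ blk v i.1
    · rw [if_pos h1]
      have h2 := (mem_blk_iff hv).1 h1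
      have h3 : t * q % p ∈ c.W v := (hWb q).2 ⟨h2.1, by rw [h2.2]; exact hi.1⟩
      rw [if_pos h3]
      by_cases h4 : cell c p q = i.2
      · rw [if_pos h4, if_pos (Prod.ext h2.2 h4)]
      · rw [if_neg h4, if_neg (fun h5 => h4 (by rw [← h5]))]
    · rw [if_neg h1]
      by_cases h3 : t * q % p ∈ c.W v
      · have h4 := (hWb q).1 h3
        rw [if_neg]
        intro h5
        exact h1 ((mem_blk_iff hv).2 ⟨h4.1, by rw [← h5]⟩)
      · rw [if_neg h3]
        simp
  -- summation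
  have hp1 : (1 : ℝ) ≤ (p : ℝ) - 1 := by
    have : (2 : ℝ) ≤ p := by exact_mod_cast (hc.hprime p hp).two_le
    linarith
  have hQ0 : (128 : ℝ) ≤ c.Q := by
    have : 128 ≤ c.Q := by omega
    exact_mod_cast this
  have hpQ' : (c.Q : ℝ) ≤ p := by exact_mod_cast hpQ
  have hm0 : (0 : ℝ) < c.m := by
    have : 0 < c.m := by omega
    exact_mod_cast this
  have hκ : 0 ≤ c.κ := by
    rw [Cfg.κ]
    positivity
  have hV : ∀ i ∈ I, ∑ t ∈ Ico 1 p, (∑ q ∈ c.P, if t * q % p ∈ blk v i.1 then g i.2 q else 0) ^ 2 ≤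
      (v : ℝ) ^ 2 * ((3 * c.E / (8 * c.m)) / ((p : ℝ) - 1) + c.κ) * ∑ q ∈ c.P, g i.2 q := by
    intro i hi
    rw [hI, mem_product] at hi
    have hb := mem_Ico.1 hi.1
    have h1 := h c hc p hp (blk v i.1) c.κ
      (fun w hw => by
        rw [blk, mem_Ioc] at hw
        refine ⟨by omega, lt_of_le_of_lt ?_ hmv⟩
        exact hw.2.trans (Nat.mul_le_mul_right _ (by omega)))
      hκ (hspec i.1 hi.1) (g i.2)
      (by simp only [hg]; rw [hc.fdiag p]; simp)
      (fun q => by
        simp only [hg]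
        split_ifs
        · exact hc.f0 p q
        · exact le_rfl)
      (fun q => by
        simp only [hg]
        split_ifs
        · exact hc.f1 p q
        · exact zero_le_one)
    refine h1.trans ?_
    rw [blk_card, mul_assoc]
    have hg0 : 0 ≤ ∑ q ∈ c.P, g i.2 q := sum_nonneg fun q _ => by
      simp only [hg]
      split_ifs
      · exact hc.f0 p q
      · exact le_rfl
    have hgC : ∑ q ∈ c.P, g i.2 q ≤ 3 * c.E / (8 * c.m) := by
      have h2 := hc.degC p hp i.2
      rw [sum_filter] at h2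
      exact h2
    refine mul_le_mul_of_nonneg_left ?_ (sq_nonneg _)
    rw [add_mul]
    refine add_le_add ?_ le_rfl
    rw [div_mul_eq_mul_div]
    refine div_le_div_of_nonneg_right ?_ (by linarith)
    rw [sq]
    exact mul_le_mul_of_nonneg_right hgC hg0
  have hsumg : ∑ i ∈ I, ∑ q ∈ c.P, g i.2 q ≤ c.m * (2 * c.E) := by
    rw [hI, sum_product]
    simp only
    rw [sum_const, Nat.card_Ico, nsmul_eq_mul]
    have : ((2 * c.m - c.m : ℕ) : ℝ) = c.m := by
      congr 1
      omega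
    rw [this]
    refine mul_le_mul_of_nonneg_left ?_ hm0.le
    rw [sum_comm]
    refine le_trans ?_ (hc.degU p hp)
    refine sum_le_sum fun q _ => ?_
    simp only [hg]
    rw [sum_ite_eq]
    split_ifs
    · exact le_rfl
    · exact hc.f0 p q
  calc ∑ t ∈ Ico 1 p, c.Coll v p t
      ≤ ∑ t ∈ Ico 1 p, 567 * ∑ i ∈ I,
        (∑ q ∈ c.P, if t * q % p ∈ blk v i.1 then g i.2 q else 0) ^ 2 := sum_le_sum hpt
    _ = 567 * ∑ i ∈ I, ∑ t ∈ Ico 1 p,
        (∑ q ∈ c.P, if t * q % p ∈ blk v i.1 then g i.2 q else 0) ^ 2 := by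
        rw [← mul_sum, sum_comm]
    _ ≤ 567 * ∑ i ∈ I, (v : ℝ) ^ 2 * ((3 * c.E / (8 * c.m)) / ((p : ℝ) - 1) + c.κ) *
          ∑ q ∈ c.P, g i.2 q :=
        mul_le_mul_of_nonneg_left (sum_le_sum hV) (by norm_num)
    _ = 567 * ((v : ℝ) ^ 2 * ((3 * c.E / (8 * c.m)) / ((p : ℝ) - 1) + c.κ)) *
          ∑ i ∈ I, ∑ q ∈ c.P, g i.2 q := by
        rw [← mul_sum, ← mul_assoc]
    _ ≤ 567 * ((v : ℝ) ^ 2 * ((3 * c.E / (8 * c.m)) / ((p : ℝ) - 1) + c.κ)) *
          (c.m * (2 * c.E)) := by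
        refine mul_le_mul_of_nonneg_left hsumg ?_
        have : 0 ≤ (3 * c.E / (8 * c.m)) / ((p : ℝ) - 1) := by
          apply div_nonneg
          · positivity
          · linarith
        positivity
    _ ≤ 1000 * (v : ℝ) ^ 2 * c.E ^ 2 / c.Q := by
        have h1 : (3 * c.E / (8 * c.m)) / ((p : ℝ) - 1) + c.κ ≤
            (5 * c.E / (8 * c.m)) / c.Q := by
          have h2 : (3 * c.E / (8 * c.m)) / ((p : ℝ) - 1) ≤ (4 * c.E / (8 * c.m)) / c.Q := by
            rw [div_le_div_iff₀ (by linarith) (by linarith), div_mul_eq_mul_div,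
              div_mul_eq_mul_div]
            refine div_le_div_of_nonneg_right ?_ (by positivity)
            nlinarith
          have h3 : c.κ = (c.E / (8 * c.m)) / c.Q := by
            rw [Cfg.κ]
            field_simp
          rw [h3]
          calc _ ≤ (4 * c.E / (8 * c.m)) / c.Q + (c.E / (8 * c.m)) / c.Q :=
                add_le_add h2 le_rfl
            _ = _ := by ring
        calc _ ≤ 567 * ((v : ℝ) ^ 2 * ((5 * c.E / (8 * c.m)) / c.Q)) * (c.m * (2 * c.E)) := by
              gcongr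
          _ = (567 * 10 / 8) * (v : ℝ) ^ 2 * c.E ^ 2 / c.Q := by
              field_simp
              norm_num
          _ ≤ _ := by
              gcongr
              norm_num

end Pool.Agent.Helper56.TS.coll
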